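import Pool.Agent.H38.T6.C5.Data

set_option autoImplicit false
set_option maxRecDepth 100000

namespace Pool.Agent.H38.T6.C5

theorem leafs : (all32 fun c => leafChk R A 782 975 187 107 c) = true := by decide +kernel

end Pool.Agent.H38.T6.C5
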